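import Pool.Agent.W251.GX.Defs
import Pool.Agent.W78.GA.SC
import Pool.Agent.W803.GA.Sect

/-!
GX-PD: product of masses
-/

set_option autoImplicit false

namespace Pool.Agent.W880.GX

open Finset Filter
open Pool.Agent.H376R2.MR (FK Fj Fj_nonneg)
open Pool.Agent.W78.GA (Qd nm prim bg dt ip lat cellM mE ps DPG ball pball edge dedge ang Ele
  dsum_eq pball_ne mul_ne bg_le' bg_nonneg final_bound norm_ps_le ps_zero mem_pball prim_ne_zero
  nm_mul nm_neg nm_pos prim_neg)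
open Pool.Agent.W251.GX

variable {t c : ℤ}

lemma Fneg {N : ℕ} {F : Qd t c → ℂ} (hF : Cm N F) (h1 : F (-1) = 1) {z : Qd t c} (hz : z ≠ 0) :
    F (-z) = F z := by
  have h2 : (-1 : Qd t c) ≠ 0 := neg_ne_zero.2 one_ne_zero
  have h3 := hF.mul (-1) z h2 hz
  rw [h1, one_mul, neg_one_mul] at h3
  exact h3

open scoped Classical in
/-- the weight of a property -/
noncomputable def wt (p : Qd t c → Prop) (Y : ℝ) (z : Qd t c) : ℝ := if p z then bg Y z else 0

lemma GF_ind (p : Qd t c → Prop) (Y : ℝ) (k : ℤ) :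
    GF (ind p) Y k = DPG (pball t c (Real.exp 1 * Y)) (fun z => (wt p Y z : ℂ)) k := by
  unfold GF
  congr 1
  funext z
  unfold ind wt
  split_ifs <;> simp

lemma mass_eq (p : Qd t c → Prop) (Y : ℝ) :
    mass p Y = ∑ z ∈ pball t c (Real.exp 1 * Y), wt p Y z := rfl

lemma wt_nonneg (p : Qd t c → Prop) (Y : ℝ) (z : Qd t c) : 0 ≤ wt p Y z := by
  unfold wt
  split_ifs
  · exact bg_nonneg Y z
  · exact le_rfl

lemma mass_nonneg (p : Qd t c → Prop) (Y : ℝ) : 0 ≤ mass p Y := by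
  rw [mass_eq]
  exact sum_nonneg fun z _ => wt_nonneg p Y z

lemma GF_ind_zero (p : Qd t c → Prop) (Y : ℝ) : GF (ind p) Y 0 = (mass p Y : ℂ) := by
  rw [GF_ind, mass_eq]
  unfold DPG
  push_cast
  refine sum_congr rfl fun z _ => ?_
  rw [ps_zero, mul_one]

lemma low (hD : t ^ 2 < 4 * c) (Y : ℝ) {u : Qd t c} (hu : u ≠ 0) {K : ℕ} (hK : 1 ≤ K)
    (p q : Qd t c → Prop) :
    mass p Y * mass q Y ≤
      ∑ z ∈ pball t c (Real.exp 1 * Y), ∑ z' ∈ pball t c (Real.exp 1 * Y),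
        wt p Y z * wt q Y z' * Fj K (ang z - ang (u * z')) +
      ∑ k ∈ (FK K).erase 0, ‖GF (ind p) Y k‖ * ‖GF (ind q) Y k‖ := by
  have hKpos : (0 : ℝ) < K := by exact_mod_cast hK
  rw [dsum_eq hD _ (fun z hz => pball_ne hD hz) (wt p Y) (wt q Y) hu K]
  have h0 : (0 : ℤ) ∈ FK K := by
    rw [FK, Finset.mem_Ioo]
    omega
  rw [← Finset.add_sum_erase _ _ h0]
  have h1 : (1 - |((0 : ℤ) : ℝ)| / K) *
      ((DPG (pball t c (Real.exp 1 * Y)) (fun z => (wt p Y z : ℂ)) 0) *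
        (starRingEnd ℂ) (DPG (pball t c (Real.exp 1 * Y)) (fun z => (wt q Y z : ℂ)) 0) *
          (starRingEnd ℂ) (ps 0 u)).re = mass p Y * mass q Y := by
    rw [← GF_ind, ← GF_ind, GF_ind_zero, GF_ind_zero, ps_zero]
    simp
  rw [h1, add_assoc]
  refine le_add_of_nonneg_right ?_
  rw [← sum_add_distrib]
  refine sum_nonneg fun k hk => ?_
  rw [mem_erase, FK, Finset.mem_Ioo] at hk
  have hw0 : 0 ≤ 1 - |(k : ℝ)| / K := by
    rw [sub_nonneg, div_le_one hKpos]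
    rw [abs_le]
    constructor
    · have : ((-(K : ℤ) : ℤ) : ℝ) < (k : ℝ) := by exact_mod_cast hk.2.1
      push_cast at this
      linarith
    · have : (k : ℝ) < ((K : ℤ) : ℝ) := by exact_mod_cast hk.2.2
      push_cast at this
      linarith
  have hw1 : 1 - |(k : ℝ)| / K ≤ 1 := by
    have : 0 ≤ |(k : ℝ)| / K := by positivity
    linarith
  rw [← GF_ind, ← GF_ind]
  obtain ⟨Z, hZ⟩ : ∃ Z : ℂ, Z = GF (ind p) Y k * (starRingEnd ℂ) (GF (ind q) Y k) *
    (starRingEnd ℂ) (ps k u) := ⟨_, rfl⟩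
  rw [← hZ]
  have h2 : ‖Z‖ ≤ ‖GF (ind p) Y k‖ * ‖GF (ind q) Y k‖ := by
    rw [hZ, norm_mul, norm_mul, RCLike.norm_conj, RCLike.norm_conj]
    have h3 := norm_ps_le u k
    have h4 : 0 ≤ ‖GF (ind p) Y k‖ * ‖GF (ind q) Y k‖ := by positivity
    exact mul_le_of_le_one_right h4 h3
  have h3 : -‖Z‖ ≤ Z.re := (abs_le.1 (Complex.abs_re_le_norm Z)).1
  have h4 : 0 ≤ ‖Z‖ := norm_nonneg Z
  nlinarith

open scoped Classical in
lemma up (hD : t ^ 2 < 4 * c) {Y : ℝ} (hY : 0 < Y) (u : Qd t c) (K : ℕ)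
    (p q : Qd t c → Prop) (R : Qd t c → Qd t c → Prop) (hR : ∀ z z', p z → q z' → R z z') :
    ∑ z ∈ pball t c (Real.exp 1 * Y), ∑ z' ∈ pball t c (Real.exp 1 * Y),
        wt p Y z * wt q Y z' * Fj K (ang z - ang (u * z')) ≤
    (Real.exp 1 / Y) ^ 2 *
      ∑ z ∈ pball t c (Real.exp 1 * Y), ∑ z' ∈ pball t c (Real.exp 1 * Y),
        (if R z z' then Fj K (ang z - ang (u * z')) else 0) := by
  rw [mul_sum]
  refine sum_le_sum fun z hz => ?_
  rw [mul_sum]
  refine sum_le_sum fun z' hz' => ?_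
  have hF := Fj_nonneg K (ang z - ang (u * z'))
  have ha := bg_le' hD hY (pball_ne hD hz)
  have hb := bg_le' hD hY (pball_ne hD hz')
  have ha0 := bg_nonneg Y z
  have hb0 := bg_nonneg Y z'
  have hab : bg Y z * bg Y z' ≤ (Real.exp 1 / Y) ^ 2 := by
    rw [pow_two]
    exact mul_le_mul ha hb hb0 (ha0.trans ha)
  have hif : 0 ≤ (Real.exp 1 / Y) ^ 2 * (if R z z' then Fj K (ang z - ang (u * z')) else 0) := by
    split_ifs
    · positivity
    · simp
  by_cases h1 : p z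
  · by_cases h2 : q z'
    · rw [if_pos (hR z z' h1 h2)]
      unfold wt
      rw [if_pos h1, if_pos h2]
      exact mul_le_mul_of_nonneg_right hab hF
    · have : wt q Y z' = 0 := if_neg h2
      rw [this, mul_zero, zero_mul]
      exact hif
  · have : wt p Y z = 0 := if_neg h1
    rw [this, zero_mul, zero_mul]
    exact hif

theorem pd (hD : t ^ 2 < 4 * c) (hpair : S_PAIR t c) (hmri : S_MRI t c) (hmom0 : S_MOM0 t c) :
    S_PD t c := by
  intro N F hF hF1 u L ε hu hL hε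
  have hu0 : u ≠ 0 := prim_ne_zero hu
  obtain ⟨C, hC, hpair⟩ := hpair u hu0
  obtain ⟨C0, hC0, hmom0⟩ := hmom0
  obtain ⟨h, hh, YM, hmri⟩ := hmri N F hF (ε ^ 2 / (8 * C0)) (by positivity)
  obtain ⟨T, hT⟩ : ∃ T : ℝ, T = 8 * Real.exp 4 * C / ε + 1 := ⟨_, rfl⟩
  have hT1 : 1 ≤ T := by
    rw [hT]
    have : 0 ≤ 8 * Real.exp 4 * C / ε := by positivity
    linarith
  have he1 : (0 : ℝ) < Real.exp 1 := Real.exp_pos 1
  have hhp : 0 < h := by linarith
  have hTp : 0 < T := by linarith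
  refine ⟨ε / (32 * Real.exp 4 * C * h * T ^ 2), by positivity, |YM| + 4 * h * T + 3, ?_⟩
  intro Y B a b hYbig hB0 hBc hab hhit
  have hhT : 1 ≤ h * T := by nlinarith
  have hYM : YM ≤ Y := by
    have := le_abs_self YM
    nlinarith
  have hY4 : 4 * h * T ≤ Y := by
    have := abs_nonneg YM
    linarith
  have hY3 : 3 ≤ Y := by
    have := abs_nonneg YM
    nlinarith
  have hYpos : 0 < Y := by linarith
  obtain ⟨K, hK⟩ : ∃ K : ℕ, K = ⌊Y / h⌋₊ := ⟨_, rfl⟩
  have hYh : 4 * T ≤ Y / h := by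
    rw [le_div_iff₀ hhp]; linarith
  have hK1 : (K : ℝ) ≤ Y / h := by rw [hK]; exact Nat.floor_le (by positivity)
  have hK2 : Y / h - 1 < K := by rw [hK]; exact Nat.sub_one_lt_floor _
  have hK3 : Y / (2 * h) ≤ K := by
    have : Y / (2 * h) = (Y / h) / 2 := by field_simp
    rw [this]
    linarith
  have hK4 : 2 * T ≤ K := by linarith
  have hKpos : (0 : ℝ) < K := by linarith
  have hKn : 1 ≤ K := by exact_mod_cast hKpos
  have hKY : (K : ℝ) ≤ Y := hK1.trans (div_le_self hYpos.le hh)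
  have he : 1 ≤ Real.exp 1 := Real.one_le_exp (by norm_num)
  have hX1 : 1 ≤ Real.exp 1 * Y := by nlinarith
  obtain ⟨p, hp⟩ : ∃ p : Qd t c → Prop, p = fun z => F z = a := ⟨_, rfl⟩
  obtain ⟨q, hq⟩ : ∃ q : Qd t c → Prop, q = fun z => F z = b ∧ prim (u * z) := ⟨_, rfl⟩
  rw [← hp, ← hq]
  -- the pairs
  have hnu : (1 : ℝ) ≤ nm u := by exact_mod_cast nm_pos hD hu0
  have hP := hpair (Real.exp 1 * Y) T K B (fun z z' => p z ∧ q z') hX1 hT1 hKn hK4 hB0 ?_
  · have h1 := low hD Y hu0 hKn p q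
    have h2 := up hD hYpos u K p q (fun z z' => p z ∧ q z') (fun z z' h1 h2 => ⟨h1, h2⟩)
    have h3 : (Real.exp 1 / Y) ^ 2 * (C * (K * (T * (Real.exp 1 * Y) / K + 1) ^ 2 * (B.card : ℝ) +
      (Real.exp 1 * Y) ^ 2 / T + (Real.exp 1 * Y) * K / T ^ 2)) ≤
      (16 * Real.exp 4 * C * h * T ^ 2 * (B.card : ℝ) / Y + 4 * Real.exp 4 * C / T) / 2 := by
      have := final_bound hC hh hT1 hYpos hKpos hK3 hKY (Nat.cast_nonneg B.card)
      linarith
    have h4 : 16 * Real.exp 4 * C * h * T ^ 2 * (B.card : ℝ) / Y ≤ ε / 2 := by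
      rw [div_le_iff₀ hYpos]
      have h5 : 16 * Real.exp 4 * C * h * T ^ 2 * (B.card : ℝ) ≤
        16 * Real.exp 4 * C * h * T ^ 2 * (ε / (32 * Real.exp 4 * C * h * T ^ 2) * Y) :=
        mul_le_mul_of_nonneg_left hBc (by positivity)
      refine h5.trans (le_of_eq ?_)
      field_simp
      ring
    have h5 : 4 * Real.exp 4 * C / T ≤ ε / 2 := by
      rw [div_le_iff₀ hTp, hT]
      have : ε / 2 * (8 * Real.exp 4 * C / ε + 1) = 4 * Real.exp 4 * C + ε / 2 := by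
        field_simp
        ring
      rw [this]
      linarith
    -- the off-diagonal terms
    have hMR := hmri Y K a hYM hK1
    rw [← hp] at hMR
    have hM0 := hmom0 (ind q) (fun z => by
      unfold ind
      split_ifs <;> simp) K Y hY3 hKn
    have h6 : ∑ k ∈ (FK K).erase 0, ‖GF (ind p) Y k‖ * ‖GF (ind q) Y k‖ ≤ ε / 2 := by
      have h7 : ∀ k ∈ (FK K).erase 0, ‖GF (ind p) Y k‖ * ‖GF (ind q) Y k‖ ≤
          (2 * C0 / ε) * ‖GF (ind p) Y k‖ ^ 2 + (ε / (8 * C0)) * ‖GF (ind q) Y k‖ ^ 2 := by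
        intro k _
        have h8 : 0 ≤ (2 * C0 / ε) * (‖GF (ind p) Y k‖ - (ε / (4 * C0)) * ‖GF (ind q) Y k‖) ^ 2 := by
          positivity
        have h9 : (2 * C0 / ε) * (‖GF (ind p) Y k‖ - (ε / (4 * C0)) * ‖GF (ind q) Y k‖) ^ 2 =
          (2 * C0 / ε) * ‖GF (ind p) Y k‖ ^ 2 + (ε / (8 * C0)) * ‖GF (ind q) Y k‖ ^ 2 -
            ‖GF (ind p) Y k‖ * ‖GF (ind q) Y k‖ := by
          field_simp
          ring
        linarith
      refine (sum_le_sum h7).trans ?_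
      rw [sum_add_distrib, ← mul_sum, ← mul_sum]
      have h10 : ∑ k ∈ (FK K).erase 0, ‖GF (ind q) Y k‖ ^ 2 ≤ C0 * 2 := by
        refine (sum_le_sum_of_subset_of_nonneg (erase_subset _ _) fun k _ _ => by positivity).trans ?_
        refine hM0.trans ?_
        refine mul_le_mul_of_nonneg_left ?_ hC0.le
        have : (K : ℝ) / Y ≤ 1 := by rw [div_le_one hYpos]; exact hKY
        linarith
      have h11 : (2 * C0 / ε) * ∑ k ∈ (FK K).erase 0, ‖GF (ind p) Y k‖ ^ 2 ≤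
        (2 * C0 / ε) * (ε ^ 2 / (8 * C0)) := mul_le_mul_of_nonneg_left hMR (by positivity)
      have h12 : (ε / (8 * C0)) * ∑ k ∈ (FK K).erase 0, ‖GF (ind q) Y k‖ ^ 2 ≤
        (ε / (8 * C0)) * (C0 * 2) := mul_le_mul_of_nonneg_left h10 (by positivity)
      have h13 : (2 * C0 / ε) * (ε ^ 2 / (8 * C0)) = ε / 4 := by field_simp; ring
      have h14 : (ε / (8 * C0)) * (C0 * 2) = ε / 4 := by field_simp; ring
      linarith
    have h7 := mul_le_mul_of_nonneg_left hP (by positivity : 0 ≤ (Real.exp 1 / Y) ^ 2)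
    linarith
  · intro z z' hz hz' hzz
    obtain ⟨hpz, hqz⟩ := hzz
    rw [hp] at hpz
    rw [hq] at hqz
    have hz1 := (mem_pball hD).1 hz
    have hz2 := (mem_pball hD).1 hz'
    have hz'0 : z' ≠ 0 := prim_ne_zero hz2.1
    have hFu : F (u * z') = F u * b := by rw [hF.mul u z' hu0 hz'0, hqz.1]
    have hm1 : z ∈ pball t c (L * Y) := by
      rw [mem_pball hD]
      refine ⟨hz1.1, hz1.2.trans ?_⟩
      have : Real.exp 1 ≤ L := by nlinarith
      exact mul_le_mul_of_nonneg_right this hYpos.le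
    have hm2 : u * z' ∈ pball t c (L * Y) := by
      rw [mem_pball hD]
      refine ⟨hqz.2, ?_⟩
      rw [nm_mul]
      push_cast
      calc (nm u : ℝ) * nm z' ≤ nm u * (Real.exp 1 * Y) :=
            mul_le_mul_of_nonneg_left hz2.2 (by positivity)
        _ = Real.exp 1 * nm u * Y := by ring
        _ ≤ L * Y := mul_le_mul_of_nonneg_right hL hYpos.le
    have hh1 := hhit z (u * z') hm1 hm2 hpz hFu
    refine ⟨?_, hh1.1, ?_⟩
    · intro h0
      rcases Pool.Agent.W803.GA.dt_zero hz1.1 hqz.2 h0 with h | h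
      · apply hab
        rw [← hFu, h]
        exact hpz.symm
      · apply hab
        rw [← hFu, h, Fneg hF hF1 (prim_ne_zero hz1.1)]
        exact hpz.symm
    · intro hneg
      refine hh1.2 ?_
      have : dt (u * z') z = - dt z (u * z') := by unfold dt; ring
      rw [this]
      linarith

end Pool.Agent.W880.GX
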